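import Pool.Agent.Helper17.TW.B1B2

/-!
# TW modules B8, B9: the diagonal sums
-/

set_option autoImplicit false

namespace Pool.Agent.Helper59.TW

open Finset Filter Topology Pool.Agent.Helper54.PT

section

variable {ℓ : ℕ} [NeZero ℓ]

theorem ee_add (x y : ZMod ℓ) : ee (x + y) = ee x * ee y := by
  simp only [ee]
  exact AddChar.map_add_eq_mul _ _ _

theorem ee_zero : ee (0 : ZMod ℓ) = 1 := by
  simp only [ee]
  exact AddChar.map_zero_eq_one _

theorem ee_sum {ι : Type*} (s : Finset ι) (f : ι → ZMod ℓ) :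
    ee (∑ i ∈ s, f i) = ∏ i ∈ s, ee (f i) := by
  classical
  induction s using Finset.induction_on with
  | empty => simp [ee_zero]
  | insert a s ha ih => rw [sum_insert ha, prod_insert ha, ee_add, ih]

theorem norm_ee (x : ZMod ℓ) : ‖ee x‖ = 1 := by
  simp only [ee]
  exact AddChar.norm_apply _ _

theorem ee_injective : Function.Injective (ee : ZMod ℓ → ℂ) := by
  intro x y h
  simp only [ee] at h
  exact ZMod.injective_stdAddChar h

/-- Two different values of `ee` add up to something of modulus at most `2 - c`. -/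
theorem exists_gap : ∃ c : ℝ, 0 < c ∧ c ≤ 1 ∧ ∀ x y : ZMod ℓ, x ≠ y → ‖ee x + ee y‖ ≤ 2 - c := by
  classical
  have key : ∀ x y : ZMod ℓ, x ≠ y → ‖ee x + ee y‖ < 2 := by
    intro x y hxy
    have h1 : ‖ee x + ee y‖ < ‖ee x‖ + ‖ee y‖ := by
      refine norm_add_lt_of_not_sameRay fun hs => hxy ?_
      have := hs.eq_of_norm_eq (by rw [norm_ee, norm_ee])
      exact ee_injective this
    rwa [norm_ee, norm_ee, one_add_one_eq_two] at h1
  -- finite minimum
  let T : Finset (ZMod ℓ × ZMod ℓ) := univ.filter fun x => x.1 ≠ x.2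
  by_cases hT : T.Nonempty
  · obtain ⟨x, hx, hmin⟩ := T.exists_min_image (fun x => 2 - ‖ee x.1 + ee x.2‖) hT
    refine ⟨min (2 - ‖ee x.1 + ee x.2‖) 1, ?_, min_le_right _ _, ?_⟩
    · have := key x.1 x.2 (mem_filter.1 hx).2
      exact lt_min (by linarith) one_pos
    · intro a b hab
      have h := hmin (a, b) (mem_filter.2 ⟨mem_univ _, hab⟩)
      have := min_le_left (2 - ‖ee x.1 + ee x.2‖) 1
      simp only at h
      linarith
  · refine ⟨1, one_pos, le_rfl, fun a b hab => ?_⟩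
    exact absurd ⟨(a, b), mem_filter.2 ⟨mem_univ _, hab⟩⟩ hT

end

end Pool.Agent.Helper59.TW

namespace Pool.Agent.Helper54.PT

open Finset Filter Topology

section

variable {ℓ : ℕ} [Fact ℓ.Prime] {σ : Type} [Fintype σ] [DecidableEq σ] (X : PData ℓ σ) {q : ℕ}

section

variable {U : Type} [Fintype U] [DecidableEq U] (Φ : U → U → ZMod ℓ) (M : ℕ)
  (θ : U → Option σ → ZMod ℓ)

/-- B8: the diagonal sum for constant `θ` with zero finite part -/
theorem ZU_const (hM : 1 ≤ M) {𝒰 : Finset U} (h𝒰 : 𝒰.card = M) (γ : ZMod ℓ)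
    (h : ∀ u ∈ 𝒰, (∀ r, θ u (some r) = 0) ∧ θ u none = γ) (n : ℕ) :
    X.ZU M θ 𝒰 n = ee (γ * (n : ZMod ℓ)) * ((X.sq n).card : ℂ) := by
  have hM0 : (M : ℂ) ≠ 0 := by exact_mod_cast (by omega : M ≠ 0)
  rw [PData.ZU, mul_comm, ← nsmul_eq_mul, ← sum_const]
  refine sum_congr rfl fun D hD => ?_
  rw [PData.mem_sq] at hD
  rw [← hD, PData.dg, Nat.cast_sum, mul_sum, Pool.Agent.Helper59.TW.ee_sum]
  refine prod_congr rfl fun p _ => ?_
  have : ∑ u ∈ 𝒰, ee (dot (θ u) (X.xx p)) = (M : ℂ) * ee (γ * (X.deg p : ZMod ℓ)) := by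
    rw [← h𝒰, ← nsmul_eq_mul, ← sum_const]
    refine sum_congr rfl fun u hu => ?_
    obtain ⟨h1, h2⟩ := h u hu
    congr 1
    rw [dot, Fintype.sum_option, h2]
    simp [h1, PData.xx]
  rw [this, mul_div_cancel_left₀ _ hM0]

/-- The abstract estimate behind B9: primes in a set of divergent harmonic sum get weight
`1 - c`. -/
theorem ZU_small_aux (hX : X.Inputs q) {h : X.P → ℝ} {c : ℝ} (hc : 0 < c) (hc1 : c ≤ 1)
    (β : Option σ → ZMod ℓ) (hβ : β ≠ 0)
    (h0 : ∀ p, 0 ≤ h p) (h1 : ∀ p, h p ≤ 1)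
    (h2 : ∀ p, dot β (X.xx p) ≠ 0 → h p ≤ 1 - c)
    (b1 : ∀ n : ℕ, n * ∑ D ∈ X.sq n, ∏ p ∈ D, h p ≤
      1 * (q : ℝ) ^ n * Real.exp (∑ k ∈ range n, (∑ p ∈ X.pr k, h p) / (q : ℝ) ^ k)) :
    Tendsto (fun n : ℕ => (∑ D ∈ X.sq n, ∏ p ∈ D, h p) / (q : ℝ) ^ n) atTop (𝓝 0) := by
  have hq0 : (0 : ℝ) < q := by
    have := hX.two_le
    exact_mod_cast (by omega : 0 < q)
  set S : ℕ → ℝ := fun n => ∑ k ∈ range n,
      (((X.pr k).filter fun p => dot β (X.xx p) ≠ 0).card : ℝ) / (q : ℝ) ^ k with hS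
  have hdiv : Tendsto S atTop atTop := hX.div β hβ
  -- the exponent
  have hpr : ∀ k, (∑ p ∈ X.pr k, h p) ≤ ((X.pr k).card : ℝ) -
      c * (((X.pr k).filter fun p => dot β (X.xx p) ≠ 0).card : ℝ) := by
    intro k
    have : ∑ p ∈ X.pr k, h p ≤ ∑ p ∈ X.pr k, (1 - c * (if dot β (X.xx p) ≠ 0 then 1 else 0)) := by
      refine sum_le_sum fun p _ => ?_
      by_cases hp : dot β (X.xx p) ≠ 0
      · rw [if_pos hp, mul_one]
        exact h2 p hp
      · rw [if_neg hp, mul_zero, sub_zero]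
        exact h1 p
    refine this.trans (le_of_eq ?_)
    rw [sum_sub_distrib, ← mul_sum, sum_const, nsmul_eq_mul, mul_one, sum_boole]
  have hcard : ∀ n : ℕ, ∑ k ∈ range n, ((X.pr k).card : ℝ) / (q : ℝ) ^ k ≤
      1 + Real.log n := by
    intro n
    have hterm : ∀ k, ((X.pr k).card : ℝ) / (q : ℝ) ^ k ≤ if k = 0 then 0 else (k : ℝ)⁻¹ := by
      intro k
      by_cases hk : k = 0
      · subst hk
        have : (X.pr 0) = ∅ := by
          refine eq_empty_of_forall_notMem fun p hp => ?_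
          have h3 := (X.mem_pr 0 p).1 hp
          have h4 := X.deg_pos p
          omega
        rw [this]
        simp
      · rw [if_neg hk]
        have hk0 : (0 : ℝ) < k := by exact_mod_cast Nat.pos_of_ne_zero hk
        rw [div_le_iff₀ (by positivity), inv_mul_eq_div, le_div_iff₀ hk0]
        have := hX.pnt k
        calc ((X.pr k).card : ℝ) * k = ((k * (X.pr k).card : ℕ) : ℝ) := by push_cast; ring
          _ ≤ ((q ^ k : ℕ) : ℝ) := by exact_mod_cast this
          _ = (q : ℝ) ^ k := by push_cast; ring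
    rcases Nat.eq_zero_or_pos n with rfl | hn
    · simp
    refine (sum_le_sum fun k _ => hterm k).trans ?_
    have hh := harmonic_le_one_add_log (n - 1)
    have h5 : ∑ k ∈ range n, (if k = 0 then (0 : ℝ) else (k : ℝ)⁻¹) = ((harmonic (n - 1) : ℚ) : ℝ) := by
      obtain ⟨m, rfl⟩ : ∃ m, n = m + 1 := ⟨n - 1, by omega⟩
      rw [sum_range_succ']
      simp only [if_true, add_zero, Nat.add_sub_cancel, harmonic, Nat.succ_ne_zero, if_false]
      push_cast
      rfl
    rw [h5]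
    refine hh.trans ?_
    have h6 : Real.log ((n - 1 : ℕ) : ℝ) ≤ Real.log n := by
      rcases Nat.eq_zero_or_pos (n - 1) with h | h
      · rw [h]
        simp only [CharP.cast_eq_zero, Real.log_zero]
        exact Real.log_nonneg (by exact_mod_cast hn)
      · exact Real.log_le_log (by exact_mod_cast h) (by exact_mod_cast Nat.sub_le n 1)
    linarith
  have hexp : ∀ n : ℕ, ∑ k ∈ range n, (∑ p ∈ X.pr k, h p) / (q : ℝ) ^ k ≤
      1 + Real.log n - c * S n := by
    intro n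
    have : ∑ k ∈ range n, (∑ p ∈ X.pr k, h p) / (q : ℝ) ^ k ≤
        ∑ k ∈ range n, (((X.pr k).card : ℝ) / (q : ℝ) ^ k -
          c * ((((X.pr k).filter fun p => dot β (X.xx p) ≠ 0).card : ℝ) / (q : ℝ) ^ k)) := by
      refine sum_le_sum fun k _ => ?_
      rw [← mul_div_assoc, ← sub_div]
      exact div_le_div_of_nonneg_right (hpr k) (by positivity)
    refine this.trans ?_
    rw [sum_sub_distrib, ← mul_sum]
    have := hcard n
    simp only [hS]
    linarith
  -- the bound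
  have hbound : ∀ n : ℕ, 0 < n → (∑ D ∈ X.sq n, ∏ p ∈ D, h p) / (q : ℝ) ^ n ≤
      Real.exp (1 - c * S n) := by
    intro n hn
    have hn0 : (0 : ℝ) < n := by exact_mod_cast hn
    rw [div_le_iff₀ (by positivity)]
    have h3 := b1 n
    have h4 : Real.exp (∑ k ∈ range n, (∑ p ∈ X.pr k, h p) / (q : ℝ) ^ k) ≤
        n * Real.exp (1 - c * S n) := by
      calc _ ≤ Real.exp (Real.log n + (1 - c * S n)) := Real.exp_le_exp.2 (by linarith [hexp n])
        _ = _ := by rw [Real.exp_add, Real.exp_log hn0]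
    have h5 : (n : ℝ) * ∑ D ∈ X.sq n, ∏ p ∈ D, h p ≤
        n * (Real.exp (1 - c * S n) * (q : ℝ) ^ n) := by
      calc _ ≤ 1 * (q : ℝ) ^ n * Real.exp (∑ k ∈ range n, (∑ p ∈ X.pr k, h p) / (q : ℝ) ^ k) := h3
        _ ≤ 1 * (q : ℝ) ^ n * (n * Real.exp (1 - c * S n)) := by gcongr
        _ = _ := by ring
    exact le_of_mul_le_mul_left h5 hn0
  have hlim : Tendsto (fun n : ℕ => Real.exp (1 - c * S n)) atTop (𝓝 0) := by
    refine Real.tendsto_exp_atBot.comp ?_
    have h3 : Tendsto (fun n => c * S n) atTop atTop := hdiv.const_mul_atTop hc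
    have h4 := tendsto_atBot_add_const_left atTop (1 : ℝ) (tendsto_neg_atTop_atBot.comp h3)
    refine h4.congr fun n => ?_
    simp only [Function.comp_apply]
    ring
  refine tendsto_of_tendsto_of_tendsto_of_le_of_le' tendsto_const_nhds hlim ?_ ?_
  · refine Eventually.of_forall fun n => div_nonneg (sum_nonneg fun D _ => prod_nonneg fun p _ => h0 p)
      (by positivity)
  · exact (eventually_gt_atTop 0).mono fun n hn => hbound n hn

/-- B9, with B1 as a hypothesis -/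
theorem ZU_small_of (hX : X.Inputs q) (hM : 1 ≤ M) {𝒰 : Finset U} (h𝒰 : 𝒰.card = M)
    (b1 : ∀ (h : X.P → ℝ) (H : ℝ), 0 ≤ H → (∀ p, 0 ≤ h p) → (∀ p, h p ≤ H) → ∀ n : ℕ,
      n * ∑ D ∈ X.sq n, ∏ p ∈ D, h p ≤
        H * (q : ℝ) ^ n * Real.exp (∑ k ∈ range n, (∑ p ∈ X.pr k, h p) / (q : ℝ) ^ k))
    (h : ¬ ∃ γ, ∀ u ∈ 𝒰, (∀ r, θ u (some r) = 0) ∧ θ u none = γ) :
    Tendsto (fun n : ℕ => X.ZU M θ 𝒰 n / (q : ℂ) ^ n) atTop (𝓝 0) := by
  classical
  have hq0 : (0 : ℝ) < q := by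
    have := hX.two_le
    exact_mod_cast (by omega : 0 < q)
  have hM0 : (0 : ℝ) < M := by exact_mod_cast hM
  have hMc : (M : ℂ) ≠ 0 := by exact_mod_cast (by omega : M ≠ 0)
  have hne : 𝒰.Nonempty := by
    rw [← card_pos]
    omega
  obtain ⟨u₀, hu₀⟩ := hne
  by_cases hcst : ∀ u ∈ 𝒰, θ u = θ u₀
  · -- constant `θ`
    have hr : ∃ r, θ u₀ (some r) ≠ 0 := by
      by_contra hcon
      push Not at hcon
      refine h ⟨θ u₀ none, fun u hu => ?_⟩
      rw [hcst u hu]
      exact ⟨hcon, rfl⟩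
    obtain ⟨n₀, hn₀⟩ := hX.sw 0 1 1
    have hb : ∀ n, n₀ ≤ n → 0 < n → ‖X.ZU M θ 𝒰 n / (q : ℂ) ^ n‖ ≤ 1 / n := by
      intro n hn hn1
      have h3 := hn₀ n hn ∅ ∅ (fun _ => 0) (θ u₀) n 1 (Subset.refl _) (by simp [PData.dg])
        (by simp [PData.dg]) (by simp) le_rfl zero_le_one le_rfl (Or.inr hr)
      have h4 : X.ZU M θ 𝒰 n = ∑ D ∈ (X.sq n).filter fun D => Disjoint D ∅,
          ∏ p ∈ D, (((1 : ℝ) : ℂ) * ee (∑ p' ∈ (∅ : Finset X.P), (0 : ZMod ℓ) * X.sym p' p +
            dot (θ u₀) (X.xx p))) := by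
        rw [PData.ZU, filter_true_of_mem fun D _ => disjoint_empty_right D]
        refine sum_congr rfl fun D _ => prod_congr rfl fun p _ => ?_
        have : ∑ u ∈ 𝒰, ee (dot (θ u) (X.xx p)) = (M : ℂ) * ee (dot (θ u₀) (X.xx p)) := by
          rw [← h𝒰, ← nsmul_eq_mul, ← sum_const]
          exact sum_congr rfl fun u hu => by rw [hcst u hu]
        rw [this, mul_div_cancel_left₀ _ hMc]
        simp
      rw [← h4] at h3
      have hn0 : (0 : ℝ) < n := by exact_mod_cast hn1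
      rw [norm_div, norm_pow, Complex.norm_natCast, div_le_iff₀ (by positivity), one_div,
        inv_mul_eq_div, le_div_iff₀ hn0]
      simpa using h3
    refine squeeze_zero_norm' ?_ tendsto_one_div_atTop_nhds_zero_nat
    filter_upwards [eventually_ge_atTop n₀, eventually_gt_atTop 0] with n h1 h2
    exact hb n h1 h2
  · push Not at hcst
    obtain ⟨u₁, hu₁, hne⟩ := hcst
    set β : Option σ → ZMod ℓ := θ u₁ - θ u₀ with hβdef
    have hβ : β ≠ 0 := sub_ne_zero.2 hne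
    obtain ⟨c, hc, hc1, hgap⟩ := Pool.Agent.Helper59.TW.exists_gap (ℓ := ℓ)
    have hdot : ∀ p, dot β (X.xx p) = dot (θ u₁) (X.xx p) - dot (θ u₀) (X.xx p) := by
      intro p
      simp only [dot, hβdef, Pi.sub_apply, sub_mul, sum_sub_distrib]
    have hu01 : u₁ ≠ u₀ := fun h' => hne (by rw [h'])
    let hh : X.P → ℝ := fun p => ‖(∑ u ∈ 𝒰, ee (dot (θ u) (X.xx p))) / (M : ℂ)‖
    have hh0 : ∀ p, 0 ≤ hh p := fun p => norm_nonneg _
    have hh1 : ∀ p, hh p ≤ 1 := by
      intro p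
      simp only [hh]
      rw [norm_div, Complex.norm_natCast, div_le_one hM0]
      refine (norm_sum_le _ _).trans ?_
      simp only [Pool.Agent.Helper59.TW.norm_ee, sum_const, nsmul_eq_mul, mul_one]
      exact_mod_cast h𝒰.le
    have hh2 : ∀ p, dot β (X.xx p) ≠ 0 → hh p ≤ 1 - c / M := by
      intro p hp
      rw [hdot, sub_ne_zero] at hp
      have h3 := hgap _ _ hp
      simp only [hh]
      rw [norm_div, Complex.norm_natCast, div_le_iff₀ hM0, sub_mul, one_mul,
        div_mul_cancel₀ _ hM0.ne']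
      rw [← add_sum_erase 𝒰 _ hu₁, ← add_sum_erase (𝒰.erase u₁) _ (mem_erase.2 ⟨hu01.symm, hu₀⟩),
        ← add_assoc]
      refine (norm_add_le _ _).trans ?_
      have h4 : ‖∑ x ∈ (𝒰.erase u₁).erase u₀, ee (dot (θ x) (X.xx p))‖ ≤ (M : ℝ) - 2 := by
        refine (norm_sum_le _ _).trans ?_
        simp only [Pool.Agent.Helper59.TW.norm_ee, sum_const, nsmul_eq_mul, mul_one]
        rw [card_erase_of_mem (mem_erase.2 ⟨hu01.symm, hu₀⟩), card_erase_of_mem hu₁, h𝒰]
        have h5 : 2 ≤ M := by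
          rw [← h𝒰]
          calc 2 = ({u₁, u₀} : Finset U).card := (card_pair hu01).symm
            _ ≤ 𝒰.card := card_le_card (by
                intro x hx
                rw [mem_insert, mem_singleton] at hx
                rcases hx with rfl | rfl
                · exact hu₁
                · exact hu₀)
        have h6 : ((M - 1 - 1 : ℕ) : ℝ) = (M : ℝ) - 2 := by
          rw [Nat.sub_sub, Nat.cast_sub (by omega)]
          norm_num
        rw [h6]
      linarith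
    have hcM : 0 < c / M := by positivity
    have hcM1 : c / M ≤ 1 := by
      rw [div_le_one hM0]
      exact hc1.trans (by exact_mod_cast hM)
    have hlim := ZU_small_aux X hX hcM hcM1 β hβ hh0 hh1 hh2 (b1 hh 1 zero_le_one hh0 hh1)
    refine squeeze_zero_norm (fun n => ?_) hlim
    rw [norm_div, norm_pow, Complex.norm_natCast]
    refine div_le_div_of_nonneg_right ?_ (by positivity)
    rw [PData.ZU]
    refine (norm_sum_le _ _).trans (sum_le_sum fun D _ => ?_)
    rw [norm_prod]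

/-- B9: all other diagonal sums are small -/
theorem ZU_small (hX : X.Inputs q) (hM : 1 ≤ M) {𝒰 : Finset U} (h𝒰 : 𝒰.card = M)
    (h : ¬ ∃ γ, ∀ u ∈ 𝒰, (∀ r, θ u (some r) = 0) ∧ θ u none = γ) :
    Tendsto (fun n : ℕ => X.ZU M θ 𝒰 n / (q : ℂ) ^ n) atTop (𝓝 0) :=
  ZU_small_of X M θ hX hM h𝒰
    (fun h H hH0 h0 hH n => sum_mult_le X hX.pnt hX.two_le h H hH0 h0 hH n) h

end

end

end Pool.Agent.Helper54.PT
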