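import Pool.Agent.Helper54.PT.DefsE

/-!
# TW module D4: equidistribution of the classes
-/

set_option autoImplicit false

namespace Pool.Agent.Helper59.TWD4

open Finset Filter Topology Pool.Agent.Helper54.PT

section

variable {ℓ : ℕ} [Fact ℓ.Prime]

theorem norm_ee (x : ZMod ℓ) : ‖ee x‖ = 1 := AddChar.norm_apply _ _

theorem ee_add (x y : ZMod ℓ) : ee (x + y) = ee x * ee y := AddChar.map_add_eq_mul _ _ _

theorem ee_sum {α : Type} (s : Finset α) (f : α → ZMod ℓ) :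
    ee (∑ i ∈ s, f i) = ∏ i ∈ s, ee (f i) := by
  classical
  induction s using Finset.induction_on with
  | empty => simp [ee]
  | insert a s ha ih => rw [sum_insert ha, prod_insert ha, ee_add, ih]

theorem sum_ee_mul (c : ZMod ℓ) : ∑ t : ZMod ℓ, ee (t * c) = if c = 0 then (ℓ : ℂ) else 0 := by
  have := AddChar.sum_mulShift c (ZMod.isPrimitive_stdAddChar ℓ)
  simpa [ee, ZMod.card] using this

theorem sum_ee_dot {I : Type} [Fintype I] [DecidableEq I] (c : I → ZMod ℓ) :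
    ∑ x : I → ZMod ℓ, ee (∑ i, x i * c i) = if ∀ i, c i = 0 then (ℓ : ℂ) ^ Fintype.card I else 0 := by
  simp only [ee_sum]
  have h := (Finset.prod_univ_sum (fun _ : I => (univ : Finset (ZMod ℓ)))
    (fun i t => ee (t * c i))).symm
  rw [Fintype.piFinset_univ] at h
  rw [h]
  simp only [sum_ee_mul]
  split_ifs with hc
  · simp [hc]
  · push Not at hc
    obtain ⟨i, hi⟩ := hc
    exact prod_eq_zero (mem_univ i) (if_neg hi)

end

end Pool.Agent.Helper59.TWD4

namespace Pool.Agent.Helper54.PT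

open Finset Filter Topology Pool.Agent.Helper59.TWD4

section

variable {σ : Type} [Fintype σ] [DecidableEq σ] {q : ℕ}

/-- D4: equidistribution of the classes -/
theorem card_class {ℓ : ℕ} [Fact ℓ.Prime] (X : PData ℓ σ) (hX : X.Inputs q) (κ₀ : σ → ZMod ℓ)
    (ε : ℝ) (hε : 0 < ε) :
    ∀ᶠ n : ℕ in atTop, |(((X.sq n).filter fun D => ∀ r, kap X D (some r) = κ₀ r).card : ℝ) -
      ((X.sq n).card : ℝ) / (ℓ : ℝ) ^ Fintype.card σ| ≤ ε * (X.sq n).card := by
  have hℓ : (0 : ℝ) < ℓ := by exact_mod_cast (Fact.out : ℓ.Prime).pos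
  have hℓc : (ℓ : ℂ) ≠ 0 := by exact_mod_cast hℓ.ne'
  set s := Fintype.card σ with hs
  obtain ⟨c, hc, hlow⟩ := hX.lower
  obtain ⟨n₀, hn₀⟩ := hX.sw 0 1 1
  -- the twisted sums
  set T : (σ → ZMod ℓ) → ℕ → ℂ := fun β n =>
    ∑ D ∈ X.sq n, ee (∑ r, β r * (kap X D (some r) - κ₀ r)) with hT
  have hT0 : ∀ n, T 0 n = ((X.sq n).card : ℂ) := by
    intro n
    simp only [hT, Pi.zero_apply, zero_mul, sum_const_zero]
    simp [ee]
  have hTβ : ∀ β : σ → ZMod ℓ, β ≠ 0 → ∀ n, n₀ ≤ n → ‖T β n‖ * n ≤ (q : ℝ) ^ n := by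
    intro β hβ n hn
    obtain ⟨r₀, hr₀⟩ := Function.ne_iff.1 hβ
    let β' : Option σ → ZMod ℓ := fun o => o.elim 0 β
    have h := hn₀ n hn ∅ ∅ (fun _ => 0) β' n 1 (Finset.Subset.refl _) (by simp [PData.dg])
      (by simp [PData.dg]) (by simp) le_rfl zero_le_one le_rfl
      (Or.inr ⟨r₀, by simpa [β'] using hr₀⟩)
    have h2 : (X.sq n).filter (fun D => Disjoint D (∅ : Finset X.P)) = X.sq n := by
      apply filter_true_of_mem
      intro D _
      exact disjoint_empty_right D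
    rw [h2] at h
    have h3 : T β n = ee (∑ r, -(β r * κ₀ r)) * ∑ D ∈ X.sq n,
        ∏ p ∈ D, (((1 : ℝ) : ℂ) * ee (∑ p' ∈ (∅ : Finset X.P), (0 : ZMod ℓ) * X.sym p' p +
          dot β' (X.xx p))) := by
      simp only [hT]
      rw [mul_sum]
      refine sum_congr rfl fun D _ => ?_
      have h4 : ∑ r, β r * (kap X D (some r) - κ₀ r) =
          ∑ r, -(β r * κ₀ r) + ∑ p ∈ D, dot β' (X.xx p) := by
        simp only [dot, Fintype.sum_option, β', Option.elim, zero_mul, zero_add]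
        rw [sum_comm, ← sum_add_distrib]
        refine sum_congr rfl fun r _ => ?_
        rw [kap, ← mul_sum]
        ring
      rw [h4, ee_add, ee_sum D]
      congr 1
      refine prod_congr rfl fun p _ => ?_
      simp
    rw [h3, norm_mul, norm_ee, one_mul]
    simpa using h
  -- the filtered cardinality
  have hcard : ∀ n, ((((X.sq n).filter fun D => ∀ r, kap X D (some r) = κ₀ r).card : ℕ) : ℂ) *
      (ℓ : ℂ) ^ s = ∑ β : σ → ZMod ℓ, T β n := by
    intro n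
    simp only [hT]
    rw [sum_comm]
    simp only [sum_ee_dot]
    rw [← sum_filter, sum_const, nsmul_eq_mul]
    congr 2
    simp only [sub_eq_zero]
  obtain ⟨n₁, hn₁⟩ := exists_nat_gt (1 / (c * ε))
  filter_upwards [hlow, eventually_ge_atTop n₀, eventually_ge_atTop n₁, eventually_gt_atTop 0]
    with n h1 h2 h3 h4
  have hn0 : (0 : ℝ) < n := by exact_mod_cast h4
  have hn3 : 1 / (c * ε) ≤ n := hn₁.le.trans (by exact_mod_cast h3)
  rw [div_le_iff₀ (by positivity)] at hn3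
  have hbound : ∀ β : σ → ZMod ℓ, β ≠ 0 → ‖T β n‖ ≤ ε * (X.sq n).card := by
    intro β hβ
    have h5 := hTβ β hβ n h2
    have h6 : ε * c * (q : ℝ) ^ n ≤ ε * (X.sq n).card := by
      have := mul_le_mul_of_nonneg_left h1 hε.le
      linarith
    refine le_trans ?_ h6
    have h7 : ‖T β n‖ ≤ ‖T β n‖ * (n * (c * ε)) :=
      le_mul_of_one_le_right (norm_nonneg _) hn3
    have h8 : ‖T β n‖ * (n * (c * ε)) = (‖T β n‖ * n) * (c * ε) := by ring
    have h9 : (‖T β n‖ * n) * (c * ε) ≤ (q : ℝ) ^ n * (c * ε) :=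
      mul_le_mul_of_nonneg_right h5 (by positivity)
    linarith
  have hsum : ((((X.sq n).filter fun D => ∀ r, kap X D (some r) = κ₀ r).card : ℕ) : ℂ) *
      (ℓ : ℂ) ^ s - ((X.sq n).card : ℂ) = ∑ β ∈ univ.erase (0 : σ → ZMod ℓ), T β n := by
    rw [hcard n, ← hT0 n, ← add_sum_erase univ (fun β => T β n) (mem_univ (0 : σ → ZMod ℓ))]
    ring
  have hnorm : ‖((((X.sq n).filter fun D => ∀ r, kap X D (some r) = κ₀ r).card : ℕ) : ℂ) *
      (ℓ : ℂ) ^ s - ((X.sq n).card : ℂ)‖ ≤ (ℓ : ℝ) ^ s * (ε * (X.sq n).card) := by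
    rw [hsum]
    refine (norm_sum_le _ _).trans ?_
    refine (sum_le_sum fun β hβ => hbound β (ne_of_mem_erase hβ)).trans ?_
    rw [sum_const, nsmul_eq_mul]
    refine mul_le_mul_of_nonneg_right ?_ (by positivity)
    have : ((univ : Finset (σ → ZMod ℓ)).erase 0).card ≤ ℓ ^ s := by
      refine (card_erase_le).trans ?_
      rw [card_univ, Fintype.card_fun, ZMod.card]
    exact_mod_cast this
  have hreal : ‖((((X.sq n).filter fun D => ∀ r, kap X D (some r) = κ₀ r).card : ℕ) : ℂ) *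
      (ℓ : ℂ) ^ s - ((X.sq n).card : ℂ)‖ =
      |(((X.sq n).filter fun D => ∀ r, kap X D (some r) = κ₀ r).card : ℝ) * (ℓ : ℝ) ^ s -
        ((X.sq n).card : ℝ)| := by
    rw [← Real.norm_eq_abs, ← Complex.norm_real]
    push_cast
    rfl
  rw [hreal] at hnorm
  have hpow : (0 : ℝ) < (ℓ : ℝ) ^ s := by positivity
  have h10 : |(((X.sq n).filter fun D => ∀ r, kap X D (some r) = κ₀ r).card : ℝ) -
      ((X.sq n).card : ℝ) / (ℓ : ℝ) ^ s| * (ℓ : ℝ) ^ s =
      |(((X.sq n).filter fun D => ∀ r, kap X D (some r) = κ₀ r).card : ℝ) * (ℓ : ℝ) ^ s -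
        ((X.sq n).card : ℝ)| := by
    rw [← abs_of_pos hpow, ← abs_mul, abs_of_pos hpow, sub_mul, div_mul_cancel₀ _ hpow.ne']
  have h11 : |(((X.sq n).filter fun D => ∀ r, kap X D (some r) = κ₀ r).card : ℝ) -
      ((X.sq n).card : ℝ) / (ℓ : ℝ) ^ s| * (ℓ : ℝ) ^ s ≤ (ε * (X.sq n).card) * (ℓ : ℝ) ^ s := by
    rw [h10]; linarith
  exact le_of_mul_le_mul_right h11 hpow

end

end Pool.Agent.Helper54.PT
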